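import Pool.Agent.Helper55.FR.GoalsA
import Pool.Agent.Helper55.FR.GoalsB

/-!
# FR-SML: the sum over the local structures
-/

set_option autoImplicit false

namespace Pool.Agent.Helper35.FR

open Finset Pool.Agent.Helper55.FR

theorem sml (hcnt : CntStmt) (hxr : XrStmt) : SmlStmt := by
  classical
  intro V _ _ n m h g L θ ε blk hcub hh0 hh1 hhg hL hLg hθ0 hθ1 hε hblk hnum x
  obtain ⟨s, hs⟩ : ∃ s, s = Real.sqrt θ := ⟨_, rfl⟩
  have hs0 : 0 ≤ s := by
    rw [hs]
    exact Real.sqrt_nonneg _
  have hs1 : s < 1 := by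
    rw [hs, show (1 : ℝ) = Real.sqrt 1 by rw [Real.sqrt_one]]
    exact Real.sqrt_lt_sqrt hθ0.le hθ1
  have hg0 : 0 < g := by omega
  have hgr : (0 : ℝ) < g := by exact_mod_cast hg0
  have hLr : (0 : ℝ) < L := by exact_mod_cast hL
  have hLgr : (L : ℝ) ≤ g := by exact_mod_cast hLg
  -- the part with `b` bad vertices
  have hpart : ∀ b : ℕ, ∑ f ∈ ((univ : Finset (V → Lab)).filter
      (fun f => Lcl n m h g f ∧ x ∈ Bad m f)).filter (fun f => (Bad m f).card = b),
        θ ^ (Bad m f).card ≤ ε * ((1 - s) * s ^ b) := by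
    intro b
    obtain ⟨A, hA⟩ : ∃ A, A = ((univ : Finset (V → Lab)).filter
      (fun f => Lcl n m h g f ∧ x ∈ Bad m f)).filter (fun f => (Bad m f).card = b) := ⟨_, rfl⟩
    rw [← hA]
    have hR0 : 0 ≤ ε * ((1 - s) * s ^ b) :=
      mul_nonneg hε (mul_nonneg (by linarith) (pow_nonneg hs0 _))
    have hmem : ∀ f ∈ A, Lcl n m h g f ∧ x ∈ Bad m f ∧ (Bad m f).card = b := by
      intro f hf
      rw [hA, mem_filter, mem_filter] at hf
      exact ⟨hf.1.2.1, hf.1.2.2, hf.2⟩
    rcases A.eq_empty_or_nonempty with hAe | ⟨f0, hf0⟩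
    · rw [hAe, sum_empty]
      exact hR0
    have hb : h * g ≤ 4 * (b : ℝ) := by
      have h1 := (hmem f0 hf0).1.cB
      rw [(hmem f0 hf0).2.2] at h1
      exact h1
    have hb0 : (0 : ℝ) ≤ b := Nat.cast_nonneg b
    obtain ⟨k, hk⟩ : ∃ k : ℕ, k = ⌈(6 * b / h + L * (8 * b / (h * g))) / L⌉₊ := ⟨_, rfl⟩
    obtain ⟨u, hu⟩ : ∃ u : ℕ, u = ⌊8 * (b : ℝ) / (h * g)⌋₊ := ⟨_, rfl⟩
    have hhg0 : 0 < h * g := by positivity
    have hX0 : 0 ≤ (6 * b / h + L * (8 * b / (h * g))) / L := by positivity
    have hk1 : 6 * b / h + L * (8 * b / (h * g)) ≤ L * k := by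
      have h1 := Nat.le_ceil ((6 * b / h + L * (8 * b / (h * g))) / L)
      rw [← hk, div_le_iff₀ hLr] at h1
      linarith
    have hk2 : L * (k : ℝ) ≤ 6 * b / h + L * (8 * b / (h * g)) + L := by
      have h1 := (Nat.ceil_lt_add_one hX0).le
      rw [← hk] at h1
      have h2 := mul_le_mul_of_nonneg_left h1 hLr.le
      rw [mul_add, mul_div_cancel₀ _ hLr.ne', mul_one] at h2
      linarith
    have hu1 : (u : ℝ) ≤ 8 * b / (h * g) := by
      rw [hu]
      exact Nat.floor_le (by positivity)
    obtain ⟨Z, hZ⟩ : ∃ Z : Finset V, Z = {x, m x} := ⟨_, rfl⟩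
    have hZc : Z.card ≤ 2 := by
      rw [hZ]
      exact card_le_two
    have hAc := hcnt V n m L blk hcub hL hblk (fun _ => Lab.O) Z A (fun f => Ws f) k u (by
      intro f hf
      obtain ⟨hl, hx, hbf⟩ := hmem f hf
      have hW : ∀ v, v ∈ Ws f ↔ f v ≠ Lab.O := fun v => by
        unfold Ws
        rw [mem_filter]
        exact ⟨fun h => h.2, fun h => ⟨mem_univ _, h⟩⟩
      have hSpc : ((Spc n f).card : ℝ) ≤ 8 * b / (h * g) := by
        have h1 := hl.cS
        rw [hbf] at h1
        rw [le_div_iff₀ hhg0]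
        linarith
      have hWc : ((Ws f).card : ℝ) ≤ 6 * b / h := by
        have h1 := hl.cW
        rw [hbf] at h1
        rw [le_div_iff₀ hh0]
        linarith
      refine ⟨?_, ?_, ?_, ?_⟩
      · intro v hv
        rw [hW] at hv
        push Not at hv
        exact hv
      · intro S hS hSn hcl
        have h1 := hl.con S hS hSn hcl
        unfold Bad at hx
        rw [mem_filter] at hx
        obtain ⟨_, _, _, hxb⟩ := hx
        by_cases hO : f x = Lab.O
        · refine ⟨m x, ?_, ?_⟩
          · rw [h1, hW]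
            intro h2
            rcases hxb with h3 | h3
            · exact h3 (hO.trans h2.symm)
            · rw [hO] at h3
              cases h3
          · rw [hZ]
            simp
        · refine ⟨x, ?_, ?_⟩
          · rw [h1, hW]
            exact hO
          · rw [hZ]
            simp
      · have h1 : ((Xr n (Ws f)).card : ℝ) ≤ 8 * b / (h * g) := by
          refine le_trans ?_ hSpc
          exact_mod_cast card_le_card (hxr V n f).1
        have h2 : (((Ws f).card + L * (Xr n (Ws f)).card : ℕ) : ℝ) ≤ ((L * k : ℕ) : ℝ) := by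
          push_cast
          have h3 := mul_le_mul_of_nonneg_left h1 hLr.le
          linarith
        exact_mod_cast h2
      · rw [hu]
        exact Nat.le_floor hSpc)
    have hnum' := hnum b k u Z.card hb (by
        have h1 := mul_le_mul_of_nonneg_left hk2 hh0.le
        have h2 : h * (6 * b / h + L * (8 * b / (h * g)) + L) =
            6 * b + 8 * b * (L / g) + h * L := by
          field_simp
        rw [h2] at h1
        have h3 : (L : ℝ) / g ≤ 1 := by
          rw [div_le_one hgr]
          exact hLgr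
        have h4 := mul_le_mul_of_nonneg_left h3 (by linarith : (0 : ℝ) ≤ 8 * b)
        nlinarith) (by
        have h1 := mul_le_mul_of_nonneg_left hu1 hhg0.le
        rw [mul_div_cancel₀ _ hhg0.ne'] at h1
        exact h1) (by
        have h1 : (Z.card : ℝ) ≤ 2 := by exact_mod_cast hZc
        nlinarith)
    calc ∑ f ∈ A, θ ^ (Bad m f).card = A.card * θ ^ b := by
          rw [sum_congr rfl fun f hf => by rw [(hmem f hf).2.2], sum_const, nsmul_eq_mul]
      _ ≤ ((240 * (L : ℝ)) ^ k * 25 ^ (L * u) * (1 + 1 / (12 * (L : ℝ))) ^ Z.card) * θ ^ b :=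
          mul_le_mul_of_nonneg_right hAc (pow_nonneg hθ0.le _)
      _ ≤ ε * (1 - Real.sqrt θ) * Real.sqrt θ ^ b := hnum'
      _ = ε * ((1 - s) * s ^ b) := by rw [← hs]; ring
  have hmaps : ∀ f ∈ (univ : Finset (V → Lab)).filter
      (fun f => Lcl n m h g f ∧ x ∈ Bad m f), (Bad m f).card ∈ range (Fintype.card V + 1) := by
    intro f _
    rw [mem_range]
    have := card_le_univ (Bad m f)
    omega
  rw [← sum_fiberwise_of_maps_to hmaps]
  calc ∑ b ∈ range (Fintype.card V + 1), ∑ f ∈ ((univ : Finset (V → Lab)).filter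
        (fun f => Lcl n m h g f ∧ x ∈ Bad m f)).filter (fun f => (Bad m f).card = b),
          θ ^ (Bad m f).card
      ≤ ∑ b ∈ range (Fintype.card V + 1), ε * ((1 - s) * s ^ b) :=
        sum_le_sum fun b _ => hpart b
    _ = ε * (1 - s ^ (Fintype.card V + 1)) := by
        rw [← mul_sum, ← mul_sum, mul_neg_geom_sum]
    _ ≤ ε * 1 := by
        apply mul_le_mul_of_nonneg_left _ hε
        have := pow_nonneg hs0 (Fintype.card V + 1)
        linarith
    _ = ε := mul_one _

end Pool.Agent.Helper35.FR
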